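import Pool.Agent.U981.PN.MOM
import Pool.Agent.U139.PN.COV
import Pool.Agent.U461.PN.AVG
import Pool.Agent.U187.PN.SLLN
import Pool.Agent.U705.PN.FOUR
import Pool.Agent.U894.PN.THIN

/-!
# Systems: the theorem of project PN for general sequences

Adapted from the packages TAIL (helper364), COV (helper139), MOM (helper981) of project PN.
-/

set_option autoImplicit false

open MeasureTheory Filter Topology Finset

namespace Pool.Agent.U204.PE

open Pool.Agent.U204.PN (Loc S_AVG S_SLLN S_FOUR)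
open Pool.Agent.U139.PN.COV (Dep exists_kappa norm_factor)
open Pool.Agent.U981.PN (H sum_abs_diff)

/-- `Q ω x` depends on `ω 1, ..., ω x` only, is `1` at `x = 0`, and changing the coordinate `m` from `v m` to the other
value adds `Q ω (x - m)` to it for `m ≤ x < 2 m`. -/
structure Sys (Q : (ℕ → Bool) → ℕ → ℤ) (v : ℕ → Bool) : Prop where
  loc : ∀ (ω ω' : ℕ → Bool) (x : ℕ), (∀ m, 1 ≤ m → m ≤ x → ω m = ω' m) → Q ω x = Q ω' x
  zero : ∀ ω : ℕ → Bool, Q ω 0 = 1
  one : ∀ (ω : ℕ → Bool) (m x : ℕ), m ≤ x → x < 2 * m →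
    Q (Function.update ω m (!v m)) x = Q (Function.update ω m (v m)) x + Q ω (x - m)

noncomputable def F (Q : (ℕ → Bool) → ℕ → ℤ) (k : ℕ) (c : Fin (k + 1) → ℤ) (n : ℕ) (ω : ℕ → Bool) : ℤ :=
  ∑ j, c j * Q ω (n + j)

noncomputable def X (Q : (ℕ → Bool) → ℕ → ℤ) (M k : ℕ) (c : Fin (k + 1) → ℤ) (n : ℕ) (ω : ℕ → Bool) : ℂ :=
  Complex.exp (2 * Real.pi * Complex.I * (F Q k c n ω : ℂ) / (M : ℂ))

noncomputable def J (Q : (ℕ → Bool) → ℕ → ℤ) (M k : ℕ) (c : Fin (k + 1) → ℤ) (D : ℕ) (ω : ℕ → Bool) : ℕ := by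
  classical exact ((Icc 1 D).filter fun i => ¬ (M : ℤ) ∣ F Q k c i ω).card

variable {Q : (ℕ → Bool) → ℕ → ℤ} {v : ℕ → Bool}

theorem X_form (M k : ℕ) (c : Fin (k + 1) → ℤ) (i : ℕ) (ω : ℕ → Bool) :
    X Q M k c i ω = Complex.exp (((2 * Real.pi * (F Q k c i ω : ℝ) / M : ℝ) : ℂ) * Complex.I) := by
  rw [X]
  congr 1
  push_cast
  ring

theorem norm_X (Q : (ℕ → Bool) → ℕ → ℤ) (M k : ℕ) (c : Fin (k + 1) → ℤ) (n : ℕ) (ω : ℕ → Bool) :
    ‖X Q M k c n ω‖ ≤ 1 := by
  rw [X_form, Complex.norm_exp_ofReal_mul_I]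

open Classical in
theorem J_succ (M k : ℕ) (c : Fin (k + 1) → ℤ) (D : ℕ) (ω : ℕ → Bool) :
    J Q M k c (D + 1) ω = J Q M k c D ω + if (M : ℤ) ∣ F Q k c (D + 1) ω then 0 else 1 := by
  unfold J
  rw [Finset.card_filter, Finset.card_filter, Finset.sum_Icc_succ_top (by omega)]
  by_cases h : (M : ℤ) ∣ F Q k c (D + 1) ω
  · simp [h]
  · simp [h]

theorem F_congr (hQ : Sys Q v) {k : ℕ} (c : Fin (k + 1) → ℤ) {n : ℕ} {ω ω' : ℕ → Bool}
    (h : ∀ m, 1 ≤ m → m ≤ n + k → ω m = ω' m) : F Q k c n ω = F Q k c n ω' := by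
  refine Finset.sum_congr rfl fun j _ => ?_
  have hj : (j : ℕ) < k + 1 := j.2
  rw [hQ.loc ω ω' (n + j) fun m h1 h2 => h m h1 (by omega)]

theorem J_congr (hQ : Sys Q v) (M : ℕ) {k : ℕ} (c : Fin (k + 1) → ℤ) {D : ℕ} {ω ω' : ℕ → Bool}
    (h : ∀ m, 1 ≤ m → m ≤ D + k → ω m = ω' m) : J Q M k c D ω = J Q M k c D ω' := by
  induction D with
  | zero => simp [J]
  | succ D ih =>
    rw [J_succ, J_succ, ih fun m h1 h2 => h m h1 (by omega), F_congr hQ c (n := D + 1) h]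

theorem dep_F (hQ : Sys Q v) (k : ℕ) (c : Fin (k + 1) → ℤ) (n : ℕ) :
    Dep (n + k + 1) fun ω => F Q k c n ω := fun ω ω' hw =>
  F_congr hQ c fun m _ hm => hw m (by omega)

theorem dep_X (hQ : Sys Q v) (M k : ℕ) (c : Fin (k + 1) → ℤ) (n : ℕ) :
    Dep (n + k + 1) fun ω => X Q M k c n ω := fun ω ω' hw => by
  have h := dep_F hQ k c n ω ω' hw
  simp only at h
  show X Q M k c n ω = X Q M k c n ω'
  rw [X, X, h]

theorem loc_X (hQ : Sys Q v) (M k : ℕ) (c : Fin (k + 1) → ℤ) (n : ℕ) : Loc fun ω => X Q M k c n ω :=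
  (dep_X hQ M k c n).loc

theorem two (hQ : Sys Q v) (M k : ℕ) (c : Fin (k + 1) → ℤ)
    (hc : ¬ (M : ℤ) ∣ c (Fin.last k)) (D : ℕ) (ω : ℕ → Bool) :
    ¬ (M : ℤ) ∣ F Q k c (D + 1) (Function.update ω (D + 1 + k) false) ∨
      ¬ (M : ℤ) ∣ F Q k c (D + 1) (Function.update ω (D + 1 + k) true) := by
  have h1 : F Q k c (D + 1) (Function.update ω (D + 1 + k) (!v (D + 1 + k))) -
      F Q k c (D + 1) (Function.update ω (D + 1 + k) (v (D + 1 + k))) = c (Fin.last k) := by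
    unfold F
    rw [Fin.sum_univ_castSucc, Fin.sum_univ_castSucc]
    have h2 : ∀ (j : Fin k) (b : Bool), Q (Function.update ω (D + 1 + k) b) (D + 1 + (j.castSucc : ℕ)) =
        Q ω (D + 1 + (j.castSucc : ℕ)) := by
      intro j b
      have hj : (j.castSucc : ℕ) < k := j.2
      exact hQ.loc _ _ _ fun m _ hm => Function.update_of_ne (by omega) _ _
    have h3 : Q (Function.update ω (D + 1 + k) (!v (D + 1 + k))) (D + 1 + (Fin.last k : ℕ)) =
        Q (Function.update ω (D + 1 + k) (v (D + 1 + k))) (D + 1 + (Fin.last k : ℕ)) + 1 := by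
      have := hQ.one ω (D + 1 + k) (D + 1 + k) le_rfl (by omega)
      rw [Nat.sub_self, hQ.zero] at this
      exact this
    rw [h3]
    simp only [h2]
    ring
  by_contra hcon
  push Not at hcon
  apply hc
  rw [← h1]
  rcases hv : v (D + 1 + k) with _ | _
  · simp only [Bool.not_false]
    exact dvd_sub hcon.2 hcon.1
  · simp only [Bool.not_true]
    exact dvd_sub hcon.1 hcon.2

theorem point (hQ : Sys Q v) (M k : ℕ) (c : Fin (k + 1) → ℤ)
    (hc : ¬ (M : ℤ) ∣ c (Fin.last k)) (D : ℕ) (η l e : ℝ) (hη : 0 ≤ η) (hl : 0 ≤ l) (he1 : η ≤ e)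
    (he2 : e ≤ 1 / 2) (ω : ℕ → Bool) :
    (1 - e) * Real.exp (-(l * J Q M k c (D + 1) (Function.update ω (D + 1 + k) false))) +
      e * Real.exp (-(l * J Q M k c (D + 1) (Function.update ω (D + 1 + k) true))) ≤
    (1 - η * (1 - Real.exp (-l))) * Real.exp (-(l * J Q M k c D ω)) := by
  have hJ : ∀ b, J Q M k c D (Function.update ω (D + 1 + k) b) = J Q M k c D ω := by
    intro b
    exact J_congr hQ M c fun m _ hm => Function.update_of_ne (by omega) _ _
  have hT := two hQ M k c hc D ω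
  have hx0 : 0 < Real.exp (-l) := Real.exp_pos _
  have hx1 : Real.exp (-l) ≤ 1 := Real.exp_le_one_iff.2 (by linarith)
  have hP : 0 < Real.exp (-(l * J Q M k c D ω)) := Real.exp_pos _
  have e1 : Real.exp (-(l * ((J Q M k c D ω + 1 : ℕ) : ℝ))) =
      Real.exp (-(l * J Q M k c D ω)) * Real.exp (-l) := by
    rw [← Real.exp_add]
    congr 1
    push_cast
    ring
  rw [J_succ, J_succ, hJ, hJ]
  obtain ⟨P, hPd⟩ : ∃ P, P = Real.exp (-(l * J Q M k c D ω)) := ⟨_, rfl⟩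
  obtain ⟨x, hxd⟩ : ∃ x, x = Real.exp (-l) := ⟨_, rfl⟩
  rw [← hPd, ← hxd] at e1
  rw [← hxd] at hx0 hx1
  rw [← hPd] at hP
  have key : ∀ y : ℝ, y ≤ 1 - η * (1 - x) → P * y ≤ (1 - η * (1 - x)) * P := by
    intro y hy
    rw [mul_comm]
    exact mul_le_mul_of_nonneg_right hy hP.le
  have hx2 : 0 ≤ 1 - x := by linarith
  by_cases d0 : (M : ℤ) ∣ F Q k c (D + 1) (Function.update ω (D + 1 + k) false)
  · have d1 : ¬ (M : ℤ) ∣ F Q k c (D + 1) (Function.update ω (D + 1 + k) true) :=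
      hT.resolve_left (not_not.2 d0)
    rw [if_pos d0, if_neg d1, e1, add_zero, ← hPd, ← hxd]
    have h := key ((1 - e) + e * x) (by nlinarith)
    linarith
  · by_cases d1 : (M : ℤ) ∣ F Q k c (D + 1) (Function.update ω (D + 1 + k) true)
    · rw [if_neg d0, if_pos d1, e1, add_zero, ← hPd, ← hxd]
      have h := key ((1 - e) * x + e) (by nlinarith)
      linarith
    · rw [if_neg d0, if_neg d1, e1, ← hPd, ← hxd]
      have h := key x (by nlinarith)
      linarith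

/-- the tail bound -/
theorem tail (hA : S_AVG) (hQ : Sys Q v) (μ : ℕ → Measure Bool) [∀ n, IsProbabilityMeasure (μ n)]
    (M k : ℕ) (c : Fin (k + 1) → ℤ) (hc : ¬ (M : ℤ) ∣ c (Fin.last k)) (D : ℕ) (η l : ℝ) (hη : 0 ≤ η)
    (hl : 0 ≤ l) : (∀ m ≤ D + k, η ≤ (μ m).real {true} ∧ (μ m).real {true} ≤ 1 / 2) →
    ∫ ω, Real.exp (-(l * J Q M k c D ω)) ∂(Measure.infinitePi μ) ≤
      (1 - η * (1 - Real.exp (-l))) ^ D := by
  have hx0 : 0 < Real.exp (-l) := Real.exp_pos _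
  have hx1 : Real.exp (-l) ≤ 1 := Real.exp_le_one_iff.2 (by linarith)
  have hloc : ∀ D, Loc fun ω => Real.exp (-(l * J Q M k c D ω)) := by
    intro D
    refine ⟨D + k + 1, fun ω ω' hw => ?_⟩
    have : J Q M k c D ω = J Q M k c D ω' := J_congr hQ M c fun m _ hm => hw m (by omega)
    show Real.exp _ = Real.exp _
    rw [this]
  induction D with
  | zero =>
    intro _
    have : ∀ ω : ℕ → Bool, Real.exp (-(l * J Q M k c 0 ω)) = 1 := by
      intro ω
      have h0 : J Q M k c 0 ω = 0 := by simp [J]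
      rw [h0]
      simp
    simp only [this]
    simp
  | succ D ih =>
    intro hm
    have ih' := ih fun m h => hm m (by omega)
    obtain ⟨he1, he2⟩ := hm (D + 1 + k) le_rfl
    have hav := (hA μ (D + 1 + k)).1
    obtain ⟨hi1, he⟩ := hav _ (hloc (D + 1))
    rw [he]
    have hη2 : η ≤ 1 / 2 := he1.trans he2
    calc _ ≤ ∫ ω, (1 - η * (1 - Real.exp (-l))) * Real.exp (-(l * J Q M k c D ω))
            ∂(Measure.infinitePi μ) := by
            apply integral_mono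
            · refine (hav _ ?_).1
              obtain ⟨L, hLo⟩ := hloc (D + 1)
              refine ⟨L, fun ω ω' hw => ?_⟩
              have q : ∀ b : Bool, Real.exp (-(l * J Q M k c (D + 1) (Function.update ω (D + 1 + k) b))) =
                  Real.exp (-(l * J Q M k c (D + 1) (Function.update ω' (D + 1 + k) b))) := by
                intro b
                apply hLo
                intro i hi
                by_cases hi' : i = D + 1 + k
                · subst hi'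
                  simp
                · rw [Function.update_of_ne hi', Function.update_of_ne hi']
                  exact hw i hi
              show _ * _ + _ * _ = _ * _ + _ * _
              rw [q, q]
            · exact (hav _ (hloc D)).1.const_mul _
            · intro ω
              exact point hQ M k c hc D η l _ hη hl he1 he2 ω
      _ = (1 - η * (1 - Real.exp (-l))) * ∫ ω, Real.exp (-(l * J Q M k c D ω))
            ∂(Measure.infinitePi μ) := integral_const_mul _ _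
      _ ≤ (1 - η * (1 - Real.exp (-l))) * (1 - η * (1 - Real.exp (-l))) ^ D := by
            apply mul_le_mul_of_nonneg_left ih'
            nlinarith
      _ = _ := by ring

/-- the coordinates `n' - r, ..., n' - 1` are reset -/
def R (v : ℕ → Bool) (n' r : ℕ) (ω : ℕ → Bool) : ℕ → Bool := fun i =>
  if n' - r ≤ i ∧ i < n' then v i else ω i

theorem R_zero (v : ℕ → Bool) (n' : ℕ) (ω : ℕ → Bool) : R v n' 0 ω = ω := by
  funext i
  simp only [R]
  rw [if_neg (by omega)]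

theorem R_upd (v : ℕ → Bool) {n' r : ℕ} (hr : r + 1 ≤ n') (ω : ℕ → Bool) (b : Bool) :
    R v n' r (Function.update ω (n' - (r + 1)) b) =
      Function.update (R v n' (r + 1) ω) (n' - (r + 1)) b := by
  funext i
  by_cases hi : i = n' - (r + 1)
  · subst hi
    rw [Function.update_self]
    simp only [R]
    rw [if_neg (by omega), Function.update_self]
  · rw [Function.update_of_ne hi]
    simp only [R]
    rw [Function.update_of_ne hi]
    by_cases h1 : n' - r ≤ i ∧ i < n'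
    · rw [if_pos h1, if_pos (by omega)]
    · rw [if_neg h1, if_neg (by omega)]

theorem R_self (v : ℕ → Bool) {n' r : ℕ} (hr : r + 1 ≤ n') (ω : ℕ → Bool) :
    R v n' (r + 1) ω (n' - (r + 1)) = v (n' - (r + 1)) := by
  simp only [R]
  rw [if_pos (by omega)]

theorem F_flip (hQ : Sys Q v) {n' D k r : ℕ} (c : Fin (k + 1) → ℤ) (hr : r < D)
    (hD : 2 * D + k < n') (ω : ℕ → Bool) :
    F Q k c n' (Function.update ω (n' - (r + 1)) (!v (n' - (r + 1)))) =
      F Q k c n' (Function.update ω (n' - (r + 1)) (v (n' - (r + 1)))) + F Q k c (r + 1) ω := by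
  unfold F
  rw [← Finset.sum_add_distrib]
  refine Finset.sum_congr rfl fun j _ => ?_
  have hj : (j : ℕ) < k + 1 := j.2
  rw [hQ.one ω (n' - (r + 1)) (n' + j) (by omega) (by omega),
    show n' + (j : ℕ) - (n' - (r + 1)) = r + 1 + j by omega]
  ring

theorem X_flip (hQ : Sys Q v) {n' D k r : ℕ} (M : ℕ) (c : Fin (k + 1) → ℤ) (hr : r < D)
    (hD : 2 * D + k < n') (ω : ℕ → Bool) :
    X Q M k c n' (Function.update ω (n' - (r + 1)) (!v (n' - (r + 1)))) =
      X Q M k c n' (Function.update ω (n' - (r + 1)) (v (n' - (r + 1)))) * X Q M k c (r + 1) ω := by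
  rw [X, X, X, F_flip hQ c hr hD, ← Complex.exp_add]
  congr 1
  push_cast
  ring

/-- the weight of the non-reset value -/
noncomputable def qq (μ : ℕ → Measure Bool) (v : ℕ → Bool) (n' i : ℕ) : ℝ :=
  if v (n' - i) = true then 1 - (μ (n' - i)).real {true} else (μ (n' - i)).real {true}

/-- the factors -/
noncomputable def ph (μ : ℕ → Measure Bool) (v : ℕ → Bool) (Q : (ℕ → Bool) → ℕ → ℤ) (M k : ℕ)
    (c : Fin (k + 1) → ℤ) (n' i : ℕ) (ω : ℕ → Bool) : ℂ :=
  (1 - (qq μ v n' i : ℂ)) + (qq μ v n' i : ℂ) * X Q M k c i ω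

theorem dep_ph (hQ : Sys Q v) (μ : ℕ → Measure Bool) (M k : ℕ) (c : Fin (k + 1) → ℤ)
    (n' i : ℕ) : Dep (i + k + 1) (ph μ v Q M k c n' i) := fun ω ω' hw => by
  have h := dep_X hQ M k c i ω ω' hw
  simp only at h
  unfold ph
  rw [h]

theorem dep_XR (hQ : Sys Q v) (M k : ℕ) (c : Fin (k + 1) → ℤ) (n' r n : ℕ) :
    Dep (n + k + 1) fun ω => X Q M k c n (R v n' r ω) := fun ω ω' hw => by
  refine dep_X hQ M k c n _ _ fun i hi => ?_
  simp only [R]
  rw [hw i hi]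

theorem step (hQ : Sys Q v) (hA : S_AVG) (μ : ℕ → Measure Bool)
    [∀ n, IsProbabilityMeasure (μ n)] (M k : ℕ) (c : Fin (k + 1) → ℤ) {n' D r : ℕ}
    (hr : r < D) (hD : 2 * D + k < n') (H : (ℕ → Bool) → ℂ) (hH : Dep (n' - D) H) :
    ∫ ω, X Q M k c n' (R v n' r ω) * H ω ∂(Measure.infinitePi μ) =
      ∫ ω, X Q M k c n' (R v n' (r + 1) ω) * (H ω * ph μ v Q M k c n' (r + 1) ω)
        ∂(Measure.infinitePi μ) := by
  have hloc : Loc fun ω => X Q M k c n' (R v n' r ω) * H ω := by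
    refine Dep.loc (L := n' + k + 1) fun ω ω' hw => ?_
    have h1 := dep_XR hQ M k c n' r n' ω ω' hw
    have h2 := hH.mono (show n' - D ≤ n' + k + 1 by omega) ω ω' hw
    simp only at h1
    rw [h1, h2]
  rw [((hA μ (n' - (r + 1))).2 _ hloc).2.2]
  refine integral_congr_ae (Eventually.of_forall fun ω => ?_)
  have hrn : r + 1 ≤ n' := by omega
  have hHu : ∀ b, H (Function.update ω (n' - (r + 1)) b) = H ω := fun b =>
    hH.upd (by omega) ω b
  have hs := R_self v hrn ω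
  have e0 : Function.update (R v n' (r + 1) ω) (n' - (r + 1)) (v (n' - (r + 1))) =
      R v n' (r + 1) ω := by rw [← hs, Function.update_eq_self]
  have e3 : X Q M k c (r + 1) (R v n' (r + 1) ω) = X Q M k c (r + 1) ω := by
    refine dep_X hQ M k c (r + 1) _ _ fun i hi => ?_
    simp only [R]
    rw [if_neg (by omega)]
  have e1 : X Q M k c n' (R v n' r (Function.update ω (n' - (r + 1)) (v (n' - (r + 1))))) =
      X Q M k c n' (R v n' (r + 1) ω) := by
    rw [R_upd v hrn, e0]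
  have e2 : X Q M k c n' (R v n' r (Function.update ω (n' - (r + 1)) (!v (n' - (r + 1))))) =
      X Q M k c n' (R v n' (r + 1) ω) * X Q M k c (r + 1) ω := by
    rw [R_upd v hrn, X_flip hQ M c hr hD, e0, e3]
  simp only [hHu]
  rcases hv : v (n' - (r + 1)) with _ | _
  · rw [hv] at e1 e2
    have e2' : X Q M k c n' (R v n' r (Function.update ω (n' - (r + 1)) true)) =
      X Q M k c n' (R v n' (r + 1) ω) * X Q M k c (r + 1) ω := e2
    rw [e1, e2']
    have hq : qq μ v n' (r + 1) = (μ (n' - (r + 1))).real {true} := by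
      unfold qq; rw [if_neg (by rw [hv]; decide)]
    unfold ph
    rw [hq]
    ring
  · rw [hv] at e1 e2
    have e2' : X Q M k c n' (R v n' r (Function.update ω (n' - (r + 1)) false)) =
      X Q M k c n' (R v n' (r + 1) ω) * X Q M k c (r + 1) ω := e2
    rw [e1, e2']
    have hq : qq μ v n' (r + 1) = 1 - (μ (n' - (r + 1))).real {true} := by
      unfold qq; rw [if_pos hv]
    unfold ph
    rw [hq]
    push_cast
    ring

theorem iter (hQ : Sys Q v) (hA : S_AVG) (μ : ℕ → Measure Bool)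
    [∀ n, IsProbabilityMeasure (μ n)] (M k : ℕ) (c : Fin (k + 1) → ℤ) {n' D : ℕ}
    (hD : 2 * D + k < n') (H : (ℕ → Bool) → ℂ) (hH : Dep (n' - D) H) (r : ℕ) (hr : r ≤ D) :
    Dep (n' - D) (fun ω => H ω * ∏ i ∈ Icc 1 r, ph μ v Q M k c n' i ω) ∧
    ∫ ω, X Q M k c n' ω * H ω ∂(Measure.infinitePi μ) =
      ∫ ω, X Q M k c n' (R v n' r ω) * (H ω * ∏ i ∈ Icc 1 r, ph μ v Q M k c n' i ω)
        ∂(Measure.infinitePi μ) := by
  induction r with
  | zero => simp [R_zero]; exact hH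
  | succ r ih =>
    obtain ⟨h1, h2⟩ := ih (by omega)
    have h3 := step hQ hA μ M k c (r := r) (by omega) hD _ h1
    have e : ∀ ω, H ω * ∏ i ∈ Icc 1 (r + 1), ph μ v Q M k c n' i ω =
        (H ω * ∏ i ∈ Icc 1 r, ph μ v Q M k c n' i ω) * ph μ v Q M k c n' (r + 1) ω := by
      intro ω
      rw [Finset.prod_Icc_succ_top (by omega), mul_assoc]
    refine ⟨?_, ?_⟩
    · intro ω ω' hw
      have h4 := h1 ω ω' hw
      have h5 := (dep_ph hQ μ M k c n' (r + 1)).mono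
        (show r + 1 + k + 1 ≤ n' - D by omega) ω ω' hw
      simp only at h4 ⊢
      rw [e, e, h4, h5]
    · rw [h2, h3]
      simp only [e]

/-- correlations -/
theorem corr (hA : S_AVG) (M : ℕ) (hM : 1 ≤ M) : ∃ κ : ℝ, 0 < κ ∧ κ ≤ 1 ∧
    ∀ (Q : (ℕ → Bool) → ℕ → ℤ) (v : ℕ → Bool), Sys Q v →
    ∀ (μ : ℕ → Measure Bool) [∀ n, IsProbabilityMeasure (μ n)] (k : ℕ)
    (c : Fin (k + 1) → ℤ) (n n' D : ℕ) (η : ℝ), n + k + D < n' → 2 * D + k < n' → 0 ≤ η →
    (∀ m < n', η ≤ (μ m).real {true} ∧ (μ m).real {true} ≤ 1 / 2) →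
    ‖∫ ω, X Q M k c n' ω * (starRingEnd ℂ) (X Q M k c n ω) ∂(Measure.infinitePi μ)‖ ≤
      ∫ ω, Real.exp (-(κ * η * J Q M k c D ω)) ∂(Measure.infinitePi μ) := by
  obtain ⟨κ, hκ0, hκ1, hκ⟩ := exists_kappa M hM
  refine ⟨κ, hκ0, hκ1, ?_⟩
  intro Q v hQ μ _ k c n n' D η hn hD hη hμ
  set H : (ℕ → Bool) → ℂ := fun ω => (starRingEnd ℂ) (X Q M k c n ω) with hH
  have hHd : Dep (n' - D) H := by
    intro ω ω' hw
    have := (dep_X hQ M k c n).mono (show n + k + 1 ≤ n' - D by omega) ω ω' hw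
    simp only [hH]
    simp only at this
    rw [this]
  obtain ⟨h1, h2⟩ := iter hQ hA μ M k c hD H hHd D le_rfl
  have h2' : ∫ ω, X Q M k c n' ω * (starRingEnd ℂ) (X Q M k c n ω)
      ∂(Measure.infinitePi μ) = ∫ ω, X Q M k c n' (R v n' D ω) *
        (H ω * ∏ i ∈ Icc 1 D, ph μ v Q M k c n' i ω) ∂(Measure.infinitePi μ) := h2
  rw [h2']
  refine (norm_integral_le_integral_norm _).trans ?_
  have l1 : Loc fun ω => ‖X Q M k c n' (R v n' D ω) *
      (H ω * ∏ i ∈ Icc 1 D, ph μ v Q M k c n' i ω)‖ := by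
    refine Dep.loc (L := n' + k + 1) fun ω ω' hw => ?_
    have g1 := dep_XR hQ M k c n' D n' ω ω' hw
    have g2 := h1.mono (show n' - D ≤ n' + k + 1 by omega) ω ω' hw
    simp only at g1 g2 ⊢
    rw [g1, g2]
  have l2 : Loc fun ω => Real.exp (-(κ * η * (J Q M k c D ω : ℝ))) := by
    refine Dep.loc (L := D + k + 1) fun ω ω' hw => ?_
    have : J Q M k c D ω = J Q M k c D ω' := J_congr hQ M c fun m _ hm => hw m (by omega)
    show Real.exp (-(κ * η * (J Q M k c D ω : ℝ))) =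
      Real.exp (-(κ * η * (J Q M k c D ω' : ℝ)))
    rw [this]
  refine integral_mono ((hA μ 0).1 _ l1).1 ((hA μ 0).1 _ l2).1 fun ω => ?_
  show ‖X Q M k c n' (R v n' D ω) * (H ω * ∏ i ∈ Icc 1 D, ph μ v Q M k c n' i ω)‖ ≤
    Real.exp (-(κ * η * (J Q M k c D ω : ℝ)))
  have b1 : ‖X Q M k c n' (R v n' D ω)‖ ≤ 1 := norm_X _ _ _ _ _ _
  have b2 : ‖H ω‖ ≤ 1 := by
    simp only [hH]
    rw [Complex.norm_conj]
    exact norm_X _ _ _ _ _ _
  have b3 : ‖∏ i ∈ Icc 1 D, ph μ v Q M k c n' i ω‖ ≤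
      Real.exp (-(κ * η * (J Q M k c D ω : ℝ))) := by
    classical
    have hJ : (J Q M k c D ω : ℝ) =
        ∑ i ∈ Icc 1 D, (if ¬ (M : ℤ) ∣ F Q k c i ω then (1 : ℝ) else 0) := by
      unfold J
      rw [Finset.card_filter]
      push_cast
      refine Finset.sum_congr rfl fun i _ => ?_
      split_ifs <;> rfl
    rw [hJ, Finset.mul_sum, ← Finset.sum_neg_distrib, Real.exp_sum, norm_prod]
    refine Finset.prod_le_prod (fun i _ => norm_nonneg _) fun i hi => ?_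
    rw [Finset.mem_Icc] at hi
    have hp := hμ (n' - i) (by omega)
    have hq : η / 2 ≤ qq μ v n' i * (1 - qq μ v n' i) := by
      have h3 : η / 2 ≤ (μ (n' - i)).real {true} * (1 - (μ (n' - i)).real {true}) := by
        nlinarith [hp.1, hp.2]
      unfold qq
      split_ifs
      · nlinarith
      · exact h3
    unfold ph
    rw [X_form]
    by_cases hdv : (M : ℤ) ∣ F Q k c i ω
    swap
    · rw [if_pos hdv, mul_one]
      exact norm_factor hκ0.le hη hq (hκ _ hdv)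
    · rw [if_neg (not_not.2 hdv)]
      obtain ⟨t, ht⟩ := hdv
      have hM0 : (M : ℝ) ≠ 0 := by
        have : (0 : ℝ) < M := by exact_mod_cast hM
        exact this.ne'
      have e : Complex.exp (((2 * Real.pi * (F Q k c i ω : ℝ) / M : ℝ) : ℂ) * Complex.I) =
          1 := by
        rw [Complex.exp_eq_one_iff]
        refine ⟨t, ?_⟩
        rw [ht]
        have hM0' : (M : ℂ) ≠ 0 := by exact_mod_cast hM0
        push_cast
        field_simp
      rw [e]
      simp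
  rw [norm_mul, norm_mul]
  calc ‖X Q M k c n' (R v n' D ω)‖ * (‖H ω‖ * ‖∏ i ∈ Icc 1 D, ph μ v Q M k c n' i ω‖)
      ≤ 1 * (1 * ‖∏ i ∈ Icc 1 D, ph μ v Q M k c n' i ω‖) :=
        mul_le_mul b1 (mul_le_mul_of_nonneg_right b2 (norm_nonneg _)) (by positivity) (by norm_num)
    _ = ‖∏ i ∈ Icc 1 D, ph μ v Q M k c n' i ω‖ := by ring
    _ ≤ _ := b3

/-- the second moment -/
theorem mom (h3 : S_AVG) (hQ : Sys Q v) (μ : ℕ → Measure Bool) [∀ n, IsProbabilityMeasure (μ n)]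
    (c₀ δ : ℝ) (hc : 0 < c₀) (hδ : 0 < δ) (hδ2 : δ < 1 / 2)
    (hμ : ∀ n : ℕ, c₀ * ((n : ℝ) + 1) ^ (-δ) ≤ (μ n).real {true} ∧ (μ n).real {true} ≤ 1 / 2)
    (M k : ℕ) (c : Fin (k + 1) → ℤ) (hM : 1 ≤ M) (hdiv : ¬ (M : ℤ) ∣ c (Fin.last k)) :
    ∃ C : ℝ, ∀ N : ℕ, 1 ≤ N →
      ∫ ω, ‖∑ n ∈ range N, X Q M k c n ω‖ ^ 2 ∂(Measure.infinitePi μ) ≤
        C * (N : ℝ) ^ (1 + 2 * δ) := by
  obtain ⟨κ, hκ0, hκ1, hcov⟩ := corr h3 M hM
  refine ⟨2 * (k + 1) + 8 / (κ * c₀ ^ 2), fun N hN => ?_⟩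
  set P := Measure.infinitePi μ with hP
  have hloc : ∀ n n' : ℕ, Loc fun ω => X Q M k c n' ω *
      (starRingEnd ℂ) (X Q M k c n ω) := by
    intro n n'
    obtain ⟨L, hL⟩ := loc_X hQ M k c n
    obtain ⟨L', hL'⟩ := loc_X hQ M k c n'
    refine ⟨max L L', fun ω ω' h => ?_⟩
    have e1 := hL ω ω' fun i hi => h i (lt_max_of_lt_left hi)
    have e2 := hL' ω ω' fun i hi => h i (lt_max_of_lt_right hi)
    simp only at e1 e2 ⊢
    rw [e1, e2]
  have hint : ∀ n n' : ℕ, Integrable (fun ω => X Q M k c n' ω *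
      (starRingEnd ℂ) (X Q M k c n ω)) P := fun n n' => ((h3 μ 0).2 _ (hloc n n')).2.1
  -- the parameters
  have hN0 : (0 : ℝ) < N := by exact_mod_cast hN
  set η : ℝ := c₀ * (N : ℝ) ^ (-δ) with hη
  have hη0 : 0 < η := by positivity
  have hηm : ∀ m < N, η ≤ (μ m).real {true} ∧ (μ m).real {true} ≤ 1 / 2 := by
    intro m hm
    refine ⟨le_trans ?_ (hμ m).1, (hμ m).2⟩
    rw [hη]
    apply mul_le_mul_of_nonneg_left _ hc.le
    apply Real.rpow_le_rpow_of_nonpos (by positivity) _ (by linarith)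
    exact_mod_cast hm
  have hη1 : η ≤ 1 / 2 := (hηm 0 hN).1.trans (hηm 0 hN).2
  set r : ℝ := 1 - κ * η ^ 2 / 2 with hr
  have hκη : 0 < κ * η ^ 2 := by positivity
  have hκη1 : κ * η ^ 2 ≤ 1 := by nlinarith
  have hr0 : 0 ≤ r := by rw [hr]; linarith
  have hr1 : r < 1 := by rw [hr]; linarith
  -- the correlations
  have hg1 : ∀ n n' : ℕ, ‖∫ ω, X Q M k c n' ω *
      (starRingEnd ℂ) (X Q M k c n ω) ∂P‖ ≤ 1 := by
    intro n n'
    have h6 := norm_integral_le_of_norm_le_const (μ := P) (C := 1)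
      (f := fun ω => X Q M k c n' ω * (starRingEnd ℂ) (X Q M k c n ω))
      (ae_of_all _ fun ω => by
        rw [norm_mul, RCLike.norm_conj]
        exact mul_le_one₀ (norm_X _ _ _ _ _ _) (norm_nonneg _) (norm_X _ _ _ _ _ _))
    rwa [probReal_univ, mul_one] at h6
  have hlt : ∀ n n' : ℕ, n < n' → n' < N → ‖∫ ω, X Q M k c n' ω *
      (starRingEnd ℂ) (X Q M k c n ω) ∂P‖ ≤ H k r (n' - n) := by
    intro n n' hnn hn'
    unfold H
    split_ifs with hd
    · exact hg1 n n'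
    · have e1 := hcov Q v hQ μ k c n n' ((n' - n - (k + 1)) / 2) η (by omega) (by omega) hη0.le
        (fun m hm => hηm m (by omega))
      have e2 := tail h3 hQ μ M k c hdiv ((n' - n - (k + 1)) / 2) η (κ * η) hη0.le
        (by positivity) (fun m hm => hηm m (by omega))
      refine e1.trans (e2.trans ?_)
      have hx0 : 0 < κ * η := by positivity
      have hx1 : κ * η ≤ 1 := by nlinarith
      have e3 : Real.exp (-(κ * η)) ≤ 1 - κ * η / 2 := by
        rw [Real.exp_neg]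
        have e4 : 1 + κ * η ≤ Real.exp (κ * η) := by linarith [Real.add_one_le_exp (κ * η)]
        refine (inv_anti₀ (by linarith) e4).trans ?_
        rw [inv_le_iff_one_le_mul₀ (by linarith)]
        nlinarith
      have e5 : 0 ≤ Real.exp (-(κ * η)) := (Real.exp_pos _).le
      apply pow_le_pow_left₀
      · nlinarith
      · rw [hr]
        nlinarith
  have hgt : ∀ n n' : ℕ, ‖∫ ω, X Q M k c n' ω *
      (starRingEnd ℂ) (X Q M k c n ω) ∂P‖ = ‖∫ ω, X Q M k c n ω *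
      (starRingEnd ℂ) (X Q M k c n' ω) ∂P‖ := by
    intro n n'
    rw [← RCLike.norm_conj, ← integral_conj]
    congr 2
    funext ω
    rw [map_mul, Complex.conj_conj, mul_comm]
  have hall : ∀ n < N, ∀ n' < N, ‖∫ ω, X Q M k c n' ω *
      (starRingEnd ℂ) (X Q M k c n ω) ∂P‖ ≤ H k r (max n n' - min n n') := by
    intro n hn n' hn'
    rcases lt_trichotomy n n' with h | h | h
    · rw [max_eq_right h.le, min_eq_left h.le]
      exact hlt n n' h hn'
    · subst h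
      rw [max_self, min_self, Nat.sub_self]
      unfold H
      rw [if_pos (Nat.zero_le _)]
      exact hg1 n n
    · rw [max_eq_left h.le, min_eq_right h.le, hgt]
      exact hlt n' n h hn
  -- expansion of the square
  have hexp : ((∫ ω, ‖∑ n ∈ range N, X Q M k c n ω‖ ^ 2 ∂P : ℝ) : ℂ) =
      ∑ n ∈ range N, ∑ n' ∈ range N, ∫ ω, X Q M k c n' ω *
        (starRingEnd ℂ) (X Q M k c n ω) ∂P := by
    rw [← integral_complex_ofReal]
    have e1 : ∀ ω, (((‖∑ n ∈ range N, X Q M k c n ω‖ ^ 2 : ℝ)) : ℂ) =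
        ∑ n ∈ range N, ∑ n' ∈ range N, X Q M k c n' ω *
          (starRingEnd ℂ) (X Q M k c n ω) := by
      intro ω
      rw [Complex.ofReal_pow, ← Complex.mul_conj', map_sum, mul_sum]
      exact sum_congr rfl fun n _ => sum_mul _ _ _
    simp only [e1]
    rw [integral_finsetSum _ fun n _ => integrable_finsetSum _ fun n' _ => hint n n']
    exact sum_congr rfl fun n _ => integral_finsetSum _ fun n' _ => hint n n'
  have hI0 : 0 ≤ ∫ ω, ‖∑ n ∈ range N, X Q M k c n ω‖ ^ 2 ∂P :=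
    integral_nonneg fun ω => by positivity
  have hmain : ∫ ω, ‖∑ n ∈ range N, X Q M k c n ω‖ ^ 2 ∂P ≤
      N * (2 * ((k + 1) + 2 / (1 - r))) := by
    calc ∫ ω, ‖∑ n ∈ range N, X Q M k c n ω‖ ^ 2 ∂P
        = ‖((∫ ω, ‖∑ n ∈ range N, X Q M k c n ω‖ ^ 2 ∂P : ℝ) : ℂ)‖ := by
          rw [Complex.norm_real, Real.norm_eq_abs, abs_of_nonneg hI0]
      _ ≤ ∑ n ∈ range N, ∑ n' ∈ range N, ‖∫ ω, X Q M k c n' ω *
          (starRingEnd ℂ) (X Q M k c n ω) ∂P‖ := by
          rw [hexp]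
          exact (norm_sum_le _ _).trans (sum_le_sum fun n _ => norm_sum_le _ _)
      _ ≤ ∑ n ∈ range N, ∑ n' ∈ range N, H k r (max n n' - min n n') :=
          sum_le_sum fun n hn => sum_le_sum fun n' hn' =>
            hall n (mem_range.1 hn) n' (mem_range.1 hn')
      _ ≤ ∑ _n ∈ range N, (2 * ((k + 1) + 2 / (1 - r))) :=
          sum_le_sum fun n hn => sum_abs_diff k r hr0 hr1 N n (mem_range.1 hn)
      _ = N * (2 * ((k + 1) + 2 / (1 - r))) := by
          rw [sum_const, card_range, nsmul_eq_mul]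
  refine hmain.trans ?_
  -- the arithmetic
  have e1 : 1 - r = κ * η ^ 2 / 2 := by rw [hr]; ring
  have e2 : η ^ 2 = c₀ ^ 2 * (N : ℝ) ^ (-(2 * δ)) := by
    rw [hη, mul_pow, ← Real.rpow_natCast ((N : ℝ) ^ (-δ)) 2, ← Real.rpow_mul hN0.le]
    congr 2
    push_cast
    ring
  have e3 : (N : ℝ) ^ (1 + 2 * δ) = N * (N : ℝ) ^ (2 * δ) := by
    rw [Real.rpow_add hN0, Real.rpow_one]
  have e4 : (1 : ℝ) ≤ (N : ℝ) ^ (2 * δ) :=
    Real.one_le_rpow (by exact_mod_cast hN) (by linarith)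
  have e5 : 2 / (1 - r) = 4 / (κ * c₀ ^ 2) * (N : ℝ) ^ (2 * δ) := by
    rw [e1, e2, Real.rpow_neg hN0.le]
    have : (0 : ℝ) < (N : ℝ) ^ (2 * δ) := by positivity
    field_simp
    ring
  rw [e5, e3]
  have e6 : 0 ≤ (N : ℝ) * (k + 1) := by positivity
  have e7 : (N : ℝ) * (2 * ((k + 1) + 4 / (κ * c₀ ^ 2) * (N : ℝ) ^ (2 * δ))) =
      2 * ((N : ℝ) * (k + 1)) + 8 / (κ * c₀ ^ 2) * (N * (N : ℝ) ^ (2 * δ)) := by ring
  have e8 : (2 * (k + 1) + 8 / (κ * c₀ ^ 2)) * ((N : ℝ) * (N : ℝ) ^ (2 * δ)) =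
      2 * (((N : ℝ) * (k + 1)) * (N : ℝ) ^ (2 * δ)) +
        8 / (κ * c₀ ^ 2) * (N * (N : ℝ) ^ (2 * δ)) := by ring
  rw [e7, e8]
  have e9 := le_mul_of_one_le_right e6 e4
  linarith


open Classical in
/-- the main theorem for systems -/
theorem main (h3 : S_AVG) (h7 : S_SLLN) (h8 : S_FOUR) (hQ : Sys Q v) (μ : ℕ → Measure Bool)
    [∀ n, IsProbabilityMeasure (μ n)] (c₀ δ : ℝ) (hc : 0 < c₀) (hδ : 0 < δ) (hδ2 : δ < 1 / 2)
    (hμ : ∀ n : ℕ, c₀ * ((n : ℝ) + 1) ^ (-δ) ≤ (μ n).real {true} ∧ (μ n).real {true} ≤ 1 / 2) :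
    ∀ᵐ ω ∂(Measure.infinitePi μ), ∀ M k : ℕ, 1 ≤ M → ∀ b : Fin k → ZMod M,
      Tendsto (fun N : ℕ => (((range N).filter fun n => ∀ j : Fin k,
        ((Q ω (n + j) : ℤ) : ZMod M) = b j).card : ℝ) / N) atTop (𝓝 (((M : ℝ) ^ k)⁻¹)) := by
  have key : ∀ᵐ ω ∂(Measure.infinitePi μ), ∀ (M k : ℕ) (c : Fin (k + 1) → ℤ), 1 ≤ M →
      ¬ (M : ℤ) ∣ c (Fin.last k) → Tendsto (fun N : ℕ =>
        (∑ n ∈ range N, X Q M k c n ω) / (N : ℂ)) atTop (𝓝 0) := by
    refine ae_all_iff.2 fun M => ae_all_iff.2 fun k => ae_all_iff.2 fun c => ?_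
    by_cases hM : 1 ≤ M
    · by_cases hd : (M : ℤ) ∣ c (Fin.last k)
      · exact Filter.Eventually.of_forall fun ω _ h => absurd hd h
      · obtain ⟨C, hC⟩ := mom h3 hQ μ c₀ δ hc hδ hδ2 hμ M k c hM hd
        have h := h7 (Measure.infinitePi μ) (fun n ω => X Q M k c n ω)
          (fun n => (((h3 μ 0).2 _ (loc_X hQ M k c n)).1)) (fun n ω => norm_X _ _ _ _ _ _)
          C (1 + 2 * δ) (by linarith) hC
        filter_upwards [h] with ω hω _ _
        exact hω
    · exact Filter.Eventually.of_forall fun ω h => absurd h hM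
  filter_upwards [key] with ω hω M k hM b
  exact h8 M k (fun n => Q ω n) hM (fun k' _ c hc' => hω M k' c hM hc') b

end Pool.Agent.U204.PE
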