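import Mathlib

set_option autoImplicit false

open Finset PowerSeries

namespace Pool.Agent.U204.PE

/-- the unit `1 - X ^ n` of the ring of power series (`n ≥ 1`) -/
noncomputable def un (n : ℕ) : (PowerSeries ℤ)ˣ :=
  if h : 1 ≤ n then Units.mkOfMulEqOne (1 - (X : PowerSeries ℤ) ^ n)
    (PowerSeries.invOfUnit (1 - (X : PowerSeries ℤ) ^ n) 1)
    (PowerSeries.mul_invOfUnit _ _ (by simp [show n ≠ 0 by omega])) else 1

/-- the coefficient of `X ^ x` in the product of the `(1 - X ^ n) ^ (- a n)`, `n ≥ 1` -/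
noncomputable def P (a : ℕ → ℤ) (x : ℕ) : ℤ :=
  coeff x ((∏ n ∈ Icc 1 x, un n ^ (- a n) : (PowerSeries ℤ)ˣ) : PowerSeries ℤ)

theorem un_val (n : ℕ) (h : 1 ≤ n) : ((un n : (PowerSeries ℤ)ˣ) : PowerSeries ℤ) = 1 - X ^ n := by
  simp [un, h]

theorem un_zpow_sub (n : ℕ) (h : 1 ≤ n) (z : ℤ) :
    (X : PowerSeries ℤ) ^ n ∣ ((un n ^ z : (PowerSeries ℤ)ˣ) : PowerSeries ℤ) - 1 := by
  have h1 : Units.map (Ideal.Quotient.mk (Ideal.span {(X : PowerSeries ℤ) ^ n})).toMonoidHom (un n) = 1 := by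
    ext
    simp only [Units.coe_map, Units.val_one]
    show Ideal.Quotient.mk _ ((un n : (PowerSeries ℤ)ˣ) : PowerSeries ℤ) = 1
    rw [un_val n h, ← map_one (Ideal.Quotient.mk (Ideal.span {(X : PowerSeries ℤ) ^ n})),
      Ideal.Quotient.eq, Ideal.mem_span_singleton]
    exact ⟨-1, by ring⟩
  have h2 : Units.map (Ideal.Quotient.mk (Ideal.span {(X : PowerSeries ℤ) ^ n})).toMonoidHom (un n ^ z) = 1 := by
    rw [map_zpow, h1, one_zpow]
  have h3 := congrArg Units.val h2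
  simp only [Units.coe_map, Units.val_one] at h3
  have h4 : Ideal.Quotient.mk (Ideal.span {(X : PowerSeries ℤ) ^ n})
      ((un n ^ z : (PowerSeries ℤ)ˣ) : PowerSeries ℤ) = Ideal.Quotient.mk _ 1 := by
    rw [map_one]; exact h3
  rw [Ideal.Quotient.eq, Ideal.mem_span_singleton] at h4
  exact h4

theorem coeff_mul_un (g : PowerSeries ℤ) (n x : ℕ) (h : x < n) (z : ℤ) :
    coeff x (g * ((un n ^ z : (PowerSeries ℤ)ˣ) : PowerSeries ℤ)) = coeff x g := by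
  obtain ⟨r, hr⟩ := un_zpow_sub n (by omega) z
  have h1 : g * ((un n ^ z : (PowerSeries ℤ)ˣ) : PowerSeries ℤ) = g + X ^ n * (g * r) := by
    have : ((un n ^ z : (PowerSeries ℤ)ˣ) : PowerSeries ℤ) = 1 + X ^ n * r := by
      rw [← hr]; ring
    rw [this]; ring
  rw [h1, map_add, PowerSeries.coeff_X_pow_mul', if_neg (by omega), add_zero]

theorem P_eq (a : ℕ → ℤ) (x N : ℕ) (h : x ≤ N) :
    coeff x ((∏ n ∈ Icc 1 N, un n ^ (- a n) : (PowerSeries ℤ)ˣ) : PowerSeries ℤ) = P a x := by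
  induction N, h using Nat.le_induction with
  | base => rfl
  | succ N hN ih =>
    rw [← ih, ← Finset.insert_Icc_right_eq_Icc_add_one (by omega), Finset.prod_insert (by simp), mul_comm, Units.val_mul,
      coeff_mul_un _ _ _ (by omega)]

theorem P_congr (a a' : ℕ → ℤ) (x : ℕ) (h : ∀ n, 1 ≤ n → n ≤ x → a n = a' n) : P a x = P a' x := by
  rw [P, P]
  congr 2
  refine Finset.prod_congr rfl fun n hn => ?_
  rw [Finset.mem_Icc] at hn
  rw [h n hn.1 hn.2]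

theorem P_zero (a : ℕ → ℤ) : P a 0 = 1 := by
  simp [P]

theorem P_one (a : ℕ → ℤ) (m x : ℕ) (h1 : m ≤ x) (h2 : x < 2 * m) :
    P (fun n => a n + if n = m then 1 else 0) x = P a x + P a (x - m) := by
  have hm : 1 ≤ m := by omega
  have e1 : (∏ n ∈ Icc 1 x, un n ^ (-(a n + if n = m then 1 else 0)) : (PowerSeries ℤ)ˣ) =
      (∏ n ∈ Icc 1 x, un n ^ (- a n)) * (un m)⁻¹ := by
    have : ∀ n ∈ Icc 1 x, un n ^ (-(a n + if n = m then (1 : ℤ) else 0)) =
        un n ^ (- a n) * (if n = m then (un m)⁻¹ else 1) := by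
      intro n _
      rcases eq_or_ne n m with rfl | hne
      · simp only [if_true]
        rw [neg_add, zpow_add, zpow_neg_one]
      · simp [hne]
    rw [Finset.prod_congr rfl this, Finset.prod_mul_distrib, Finset.prod_ite_eq',
      if_pos (Finset.mem_Icc.2 ⟨hm, h1⟩)]
  have e2 : (((un m)⁻¹ : (PowerSeries ℤ)ˣ) : PowerSeries ℤ) =
      1 + X ^ m + X ^ (2 * m) * (((un m)⁻¹ : (PowerSeries ℤ)ˣ) : PowerSeries ℤ) := by
    have h3 : ((un m : (PowerSeries ℤ)ˣ) : PowerSeries ℤ) * (((un m)⁻¹ : (PowerSeries ℤ)ˣ) : PowerSeries ℤ) = 1 :=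
      Units.mul_inv _
    rw [un_val m hm] at h3
    have h4 : (1 + X ^ m) * ((1 - X ^ m) * (((un m)⁻¹ : (PowerSeries ℤ)ˣ) : PowerSeries ℤ)) = 1 + X ^ m := by
      rw [h3, mul_one]
    have h5 : (1 + X ^ m) * ((1 - X ^ m) * (((un m)⁻¹ : (PowerSeries ℤ)ˣ) : PowerSeries ℤ)) =
        (((un m)⁻¹ : (PowerSeries ℤ)ˣ) : PowerSeries ℤ) -
          X ^ (2 * m) * (((un m)⁻¹ : (PowerSeries ℤ)ˣ) : PowerSeries ℤ) := by ring
    rw [h5] at h4
    rw [← h4]; ring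
  rw [P, e1, Units.val_mul, e2]
  set g : PowerSeries ℤ := ((∏ n ∈ Icc 1 x, un n ^ (- a n) : (PowerSeries ℤ)ˣ) : PowerSeries ℤ) with hg
  have e3 : g * (1 + X ^ m + X ^ (2 * m) * (((un m)⁻¹ : (PowerSeries ℤ)ˣ) : PowerSeries ℤ)) =
      g + X ^ m * g + X ^ (2 * m) * (g * (((un m)⁻¹ : (PowerSeries ℤ)ˣ) : PowerSeries ℤ)) := by ring
  rw [e3, map_add, map_add, PowerSeries.coeff_X_pow_mul', PowerSeries.coeff_X_pow_mul',
    if_pos h1, if_neg (by omega), add_zero, hg, P_eq a (x - m) x (by omega)]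
  rfl

end Pool.Agent.U204.PE
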