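import Pool.Agent.U204.PE.Abs
import Pool.Agent.U204.PE.Exp
import Pool.Agent.U204.PN.Fin

set_option autoImplicit false

open MeasureTheory Filter Topology Finset

namespace Pool.Agent.U204.PE

/-- the changed exponents -/
def chx (a : ℕ → ℤ) (s : ℕ → ℤˣ) (ω : ℕ → Bool) (n : ℕ) : ℤ :=
  a n + if ω n = true then (s n : ℤ) else 0

/-- the base value -/
noncomputable def vx (s : ℕ → ℤˣ) (n : ℕ) : Bool := if s n = 1 then false else true

theorem sys_chx (a : ℕ → ℤ) (s : ℕ → ℤˣ) : Sys (fun ω x => P (chx a s ω) x) (vx s) where
  loc := by
    intro ω ω' x h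
    refine P_congr _ _ x fun n h1 h2 => ?_
    simp only [chx]
    rw [h n h1 h2]
  zero := fun ω => P_zero _
  one := by
    intro ω m x h1 h2
    have hm : 1 ≤ m := by omega
    have key : ∀ (W W' : ℕ → ℤ), (∀ n, W' n = W n + if n = m then 1 else 0) →
        (∀ n, n ≠ m → W n = chx a s ω n) → P W' x = P W x + P (chx a s ω) (x - m) := by
      intro W W' hW hW2
      have e1 : W' = fun n => W n + if n = m then 1 else 0 := funext hW
      rw [e1, P_one W m x h1 h2]
      congr 1
      exact P_congr _ _ _ fun n hn1 hn2 => hW2 n (by omega)
    rcases Int.units_eq_one_or (s m) with hs | hs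
    · have hv : vx s m = false := by simp [vx, hs]
      rw [hv]
      refine key _ _ (fun n => ?_) (fun n hn => ?_)
      · by_cases hn : n = m
        · subst hn
          simp [chx, hs]
        · simp [chx, Function.update_of_ne hn, hn]
      · simp [chx, Function.update_of_ne hn]
    · have hv : vx s m = true := by
        have : s m ≠ 1 := by rw [hs]; decide
        simp [vx, this]
      rw [hv]
      refine key _ _ (fun n => ?_) (fun n hn => ?_)
      · by_cases hn : n = m
        · subst hn
          simp [chx, hs]
        · simp [chx, Function.update_of_ne hn, hn]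
      · simp [chx, Function.update_of_ne hn]

end Pool.Agent.U204.PE
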