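import Pool.Agent.U204.PE.Abs
import Pool.Agent.U204.PE.Fin

/-!
# The theorem for systems, with arbitrary bounded weights
-/

set_option autoImplicit false

open MeasureTheory Filter Topology Finset

namespace Pool.Agent.U204.PE

open Pool.Agent.U204.PN (Loc S_AVG S_SLLN S_FOUR)
open Pool.Agent.U981.PN (H sum_abs_diff)
open Pool.Agent.U705.PN.FOUR (ch ch_zero ind)

variable {Q : (ℕ → Bool) → ℕ → ℤ} {v : ℕ → Bool}

/-- the second moment, with weights -/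
theorem momw (h3 : S_AVG) (hQ : Sys Q v) (μ : ℕ → Measure Bool) [∀ n, IsProbabilityMeasure (μ n)]
    (c₀ δ : ℝ) (hc : 0 < c₀) (hδ : 0 < δ) (hδ2 : δ < 1 / 2)
    (hμ : ∀ n : ℕ, c₀ * ((n : ℝ) + 1) ^ (-δ) ≤ (μ n).real {true} ∧ (μ n).real {true} ≤ 1 / 2)
    (w : ℕ → ℂ) (hw : ∀ n, ‖w n‖ ≤ 1)
    (M k : ℕ) (c : Fin (k + 1) → ℤ) (hM : 1 ≤ M) (hdiv : ¬ (M : ℤ) ∣ c (Fin.last k)) :
    ∃ C : ℝ, ∀ N : ℕ, 1 ≤ N →
      ∫ ω, ‖∑ n ∈ range N, w n * X Q M k c n ω‖ ^ 2 ∂(Measure.infinitePi μ) ≤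
        C * (N : ℝ) ^ (1 + 2 * δ) := by
  obtain ⟨κ, hκ0, hκ1, hcov⟩ := corr h3 M hM
  refine ⟨2 * (k + 1) + 8 / (κ * c₀ ^ 2), fun N hN => ?_⟩
  set P := Measure.infinitePi μ with hP
  have hloc : ∀ n n' : ℕ, Loc fun ω => X Q M k c n' ω *
      (starRingEnd ℂ) (X Q M k c n ω) := by
    intro n n'
    obtain ⟨L, hL⟩ := loc_X hQ M k c n
    obtain ⟨L', hL'⟩ := loc_X hQ M k c n'
    refine ⟨max L L', fun ω ω' h => ?_⟩
    have e1 := hL ω ω' fun i hi => h i (lt_max_of_lt_left hi)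
    have e2 := hL' ω ω' fun i hi => h i (lt_max_of_lt_right hi)
    simp only at e1 e2 ⊢
    rw [e1, e2]
  have hint : ∀ n n' : ℕ, Integrable (fun ω => X Q M k c n' ω *
      (starRingEnd ℂ) (X Q M k c n ω)) P := fun n n' => ((h3 μ 0).2 _ (hloc n n')).2.1
  -- the parameters
  have hN0 : (0 : ℝ) < N := by exact_mod_cast hN
  set η : ℝ := c₀ * (N : ℝ) ^ (-δ) with hη
  have hη0 : 0 < η := by positivity
  have hηm : ∀ m < N, η ≤ (μ m).real {true} ∧ (μ m).real {true} ≤ 1 / 2 := by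
    intro m hm
    refine ⟨le_trans ?_ (hμ m).1, (hμ m).2⟩
    rw [hη]
    apply mul_le_mul_of_nonneg_left _ hc.le
    apply Real.rpow_le_rpow_of_nonpos (by positivity) _ (by linarith)
    exact_mod_cast hm
  have hη1 : η ≤ 1 / 2 := (hηm 0 hN).1.trans (hηm 0 hN).2
  set r : ℝ := 1 - κ * η ^ 2 / 2 with hr
  have hκη : 0 < κ * η ^ 2 := by positivity
  have hκη1 : κ * η ^ 2 ≤ 1 := by nlinarith
  have hr0 : 0 ≤ r := by rw [hr]; linarith
  have hr1 : r < 1 := by rw [hr]; linarith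
  -- the correlations
  have hg1 : ∀ n n' : ℕ, ‖∫ ω, X Q M k c n' ω *
      (starRingEnd ℂ) (X Q M k c n ω) ∂P‖ ≤ 1 := by
    intro n n'
    have h6 := norm_integral_le_of_norm_le_const (μ := P) (C := 1)
      (f := fun ω => X Q M k c n' ω * (starRingEnd ℂ) (X Q M k c n ω))
      (ae_of_all _ fun ω => by
        rw [norm_mul, RCLike.norm_conj]
        exact mul_le_one₀ (norm_X _ _ _ _ _ _) (norm_nonneg _) (norm_X _ _ _ _ _ _))
    rwa [probReal_univ, mul_one] at h6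
  have hlt : ∀ n n' : ℕ, n < n' → n' < N → ‖∫ ω, X Q M k c n' ω *
      (starRingEnd ℂ) (X Q M k c n ω) ∂P‖ ≤ H k r (n' - n) := by
    intro n n' hnn hn'
    unfold H
    split_ifs with hd
    · exact hg1 n n'
    · have e1 := hcov Q v hQ μ k c n n' ((n' - n - (k + 1)) / 2) η (by omega) (by omega) hη0.le
        (fun m hm => hηm m (by omega))
      have e2 := tail h3 hQ μ M k c hdiv ((n' - n - (k + 1)) / 2) η (κ * η) hη0.le
        (by positivity) (fun m hm => hηm m (by omega))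
      refine e1.trans (e2.trans ?_)
      have hx0 : 0 < κ * η := by positivity
      have hx1 : κ * η ≤ 1 := by nlinarith
      have e3 : Real.exp (-(κ * η)) ≤ 1 - κ * η / 2 := by
        rw [Real.exp_neg]
        have e4 : 1 + κ * η ≤ Real.exp (κ * η) := by linarith [Real.add_one_le_exp (κ * η)]
        refine (inv_anti₀ (by linarith) e4).trans ?_
        rw [inv_le_iff_one_le_mul₀ (by linarith)]
        nlinarith
      have e5 : 0 ≤ Real.exp (-(κ * η)) := (Real.exp_pos _).le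
      apply pow_le_pow_left₀
      · nlinarith
      · rw [hr]
        nlinarith
  have hgt : ∀ n n' : ℕ, ‖∫ ω, X Q M k c n' ω *
      (starRingEnd ℂ) (X Q M k c n ω) ∂P‖ = ‖∫ ω, X Q M k c n ω *
      (starRingEnd ℂ) (X Q M k c n' ω) ∂P‖ := by
    intro n n'
    rw [← RCLike.norm_conj, ← integral_conj]
    congr 2
    funext ω
    rw [map_mul, Complex.conj_conj, mul_comm]
  have hall : ∀ n < N, ∀ n' < N, ‖∫ ω, X Q M k c n' ω *
      (starRingEnd ℂ) (X Q M k c n ω) ∂P‖ ≤ H k r (max n n' - min n n') := by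
    intro n hn n' hn'
    rcases lt_trichotomy n n' with h | h | h
    · rw [max_eq_right h.le, min_eq_left h.le]
      exact hlt n n' h hn'
    · subst h
      rw [max_self, min_self, Nat.sub_self]
      unfold H
      rw [if_pos (Nat.zero_le _)]
      exact hg1 n n
    · rw [max_eq_left h.le, min_eq_right h.le, hgt]
      exact hlt n' n h hn
  -- expansion of the square
  have hexp : ((∫ ω, ‖∑ n ∈ range N, w n * X Q M k c n ω‖ ^ 2 ∂P : ℝ) : ℂ) =
      ∑ n ∈ range N, ∑ n' ∈ range N, (w n' * (starRingEnd ℂ) (w n)) * ∫ ω, X Q M k c n' ω *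
        (starRingEnd ℂ) (X Q M k c n ω) ∂P := by
    rw [← integral_complex_ofReal]
    have e1 : ∀ ω, (((‖∑ n ∈ range N, w n * X Q M k c n ω‖ ^ 2 : ℝ)) : ℂ) =
        ∑ n ∈ range N, ∑ n' ∈ range N, (w n' * (starRingEnd ℂ) (w n)) * (X Q M k c n' ω *
          (starRingEnd ℂ) (X Q M k c n ω)) := by
      intro ω
      rw [Complex.ofReal_pow, ← Complex.mul_conj', map_sum, mul_sum]
      refine sum_congr rfl fun n _ => ?_
      rw [sum_mul]
      refine sum_congr rfl fun n' _ => ?_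
      rw [map_mul]
      ring
    simp only [e1]
    rw [integral_finsetSum _ fun n _ => integrable_finsetSum _ fun n' _ => (hint n n').const_mul _]
    refine sum_congr rfl fun n _ => ?_
    rw [integral_finsetSum _ fun n' _ => (hint n n').const_mul _]
    exact sum_congr rfl fun n' _ => integral_const_mul _ _
  have hI0 : 0 ≤ ∫ ω, ‖∑ n ∈ range N, w n * X Q M k c n ω‖ ^ 2 ∂P :=
    integral_nonneg fun ω => by positivity
  have hmain : ∫ ω, ‖∑ n ∈ range N, w n * X Q M k c n ω‖ ^ 2 ∂P ≤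
      N * (2 * ((k + 1) + 2 / (1 - r))) := by
    calc ∫ ω, ‖∑ n ∈ range N, w n * X Q M k c n ω‖ ^ 2 ∂P
        = ‖((∫ ω, ‖∑ n ∈ range N, w n * X Q M k c n ω‖ ^ 2 ∂P : ℝ) : ℂ)‖ := by
          rw [Complex.norm_real, Real.norm_eq_abs, abs_of_nonneg hI0]
      _ ≤ ∑ n ∈ range N, ∑ n' ∈ range N, ‖(w n' * (starRingEnd ℂ) (w n)) * ∫ ω, X Q M k c n' ω *
          (starRingEnd ℂ) (X Q M k c n ω) ∂P‖ := by
          rw [hexp]
          exact (norm_sum_le _ _).trans (sum_le_sum fun n _ => norm_sum_le _ _)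
      _ ≤ ∑ n ∈ range N, ∑ n' ∈ range N, H k r (max n n' - min n n') :=
          sum_le_sum fun n hn => sum_le_sum fun n' hn' => by
            rw [norm_mul, norm_mul, RCLike.norm_conj]
            have g1 := hall n (mem_range.1 hn) n' (mem_range.1 hn')
            have g2 : ‖w n'‖ * ‖w n‖ ≤ 1 := mul_le_one₀ (hw n') (norm_nonneg _) (hw n)
            exact (mul_le_of_le_one_left (norm_nonneg _) g2).trans g1
      _ ≤ ∑ _n ∈ range N, (2 * ((k + 1) + 2 / (1 - r))) :=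
          sum_le_sum fun n hn => sum_abs_diff k r hr0 hr1 N n (mem_range.1 hn)
      _ = N * (2 * ((k + 1) + 2 / (1 - r))) := by
          rw [sum_const, card_range, nsmul_eq_mul]
  refine hmain.trans ?_
  -- the arithmetic
  have e1 : 1 - r = κ * η ^ 2 / 2 := by rw [hr]; ring
  have e2 : η ^ 2 = c₀ ^ 2 * (N : ℝ) ^ (-(2 * δ)) := by
    rw [hη, mul_pow, ← Real.rpow_natCast ((N : ℝ) ^ (-δ)) 2, ← Real.rpow_mul hN0.le]
    congr 2
    push_cast
    ring
  have e3 : (N : ℝ) ^ (1 + 2 * δ) = N * (N : ℝ) ^ (2 * δ) := by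
    rw [Real.rpow_add hN0, Real.rpow_one]
  have e4 : (1 : ℝ) ≤ (N : ℝ) ^ (2 * δ) :=
    Real.one_le_rpow (by exact_mod_cast hN) (by linarith)
  have e5 : 2 / (1 - r) = 4 / (κ * c₀ ^ 2) * (N : ℝ) ^ (2 * δ) := by
    rw [e1, e2, Real.rpow_neg hN0.le]
    have : (0 : ℝ) < (N : ℝ) ^ (2 * δ) := by positivity
    field_simp
    ring
  rw [e5, e3]
  have e6 : 0 ≤ (N : ℝ) * (k + 1) := by positivity
  have e7 : (N : ℝ) * (2 * ((k + 1) + 4 / (κ * c₀ ^ 2) * (N : ℝ) ^ (2 * δ))) =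
      2 * ((N : ℝ) * (k + 1)) + 8 / (κ * c₀ ^ 2) * (N * (N : ℝ) ^ (2 * δ)) := by ring
  have e8 : (2 * (k + 1) + 8 / (κ * c₀ ^ 2)) * ((N : ℝ) * (N : ℝ) ^ (2 * δ)) =
      2 * (((N : ℝ) * (k + 1)) * (N : ℝ) ^ (2 * δ)) +
        8 / (κ * c₀ ^ 2) * (N * (N : ℝ) ^ (2 * δ)) := by ring
  rw [e7, e8]
  have e9 := le_mul_of_one_le_right e6 e4
  linarith


theorem meanw {M : ℕ} (k : ℕ) (a : ℕ → ℤ) (w : ℕ → ℂ)
    (h : ∀ k' < k, ∀ c : Fin (k' + 1) → ℤ, ¬ (M : ℤ) ∣ c (Fin.last k') →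
      Tendsto (fun N : ℕ => (∑ n ∈ range N, w n * Complex.exp (2 * Real.pi * Complex.I *
      ((∑ j, c j * a (n + j) : ℤ) : ℂ) / (M : ℂ))) / (N : ℂ)) atTop (𝓝 0))
    (c : Fin k → ℕ) (hc : ∀ j, c j < M) (hc0 : c ≠ 0) :
    Tendsto (fun N : ℕ => (∑ n ∈ range N, w n * ch M (∑ j, (c j : ℤ) * a (n + j))) / (N : ℂ))
      atTop (𝓝 0) := by
  classical
  have hne : (univ.filter fun j : Fin k => c j ≠ 0).Nonempty := by
    obtain ⟨j, hj⟩ := Function.ne_iff.1 hc0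
    exact ⟨j, by simpa using hj⟩
  set m := (univ.filter fun j : Fin k => c j ≠ 0).max' hne with hm
  have hm0 : c m ≠ 0 := by
    have := Finset.max'_mem _ hne
    simpa using this
  have hmax : ∀ j : Fin k, m < j → c j = 0 := by
    intro j hj
    by_contra hcj
    have := Finset.le_max' (univ.filter fun j : Fin k => c j ≠ 0) j (by simpa using hcj)
    exact absurd (lt_of_lt_of_le hj this) (lt_irrefl _)
  let d : ℕ → ℤ := fun j => if hj : j < k then (c ⟨j, hj⟩ : ℤ) else 0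
  have hd : ∀ j : Fin k, d j = c j := fun j => by simp [d, j.2]
  have key : ∀ n : ℕ, ∑ j : Fin k, (c j : ℤ) * a (n + j) =
      ∑ j : Fin ((m : ℕ) + 1), d j * a (n + j) := by
    intro n
    rw [Fin.sum_univ_eq_sum_range (fun j => d j * a (n + j)) ((m : ℕ) + 1)]
    have e1 : ∑ j : Fin k, (c j : ℤ) * a (n + j) = ∑ j : Fin k, d j * a (n + j) :=
      Finset.sum_congr rfl fun j _ => by rw [hd]
    rw [e1, Fin.sum_univ_eq_sum_range (fun j => d j * a (n + j)) k]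
    symm
    refine Finset.sum_subset (fun j hj => ?_) fun j hj hj2 => ?_
    · have h1 := Finset.mem_range.1 hj
      have h2 := m.2
      exact Finset.mem_range.2 (by omega)
    · have h1 := Finset.mem_range.1 hj
      have h2 : ¬ j < (m : ℕ) + 1 := fun h3 => hj2 (Finset.mem_range.2 h3)
      have h3 : c ⟨j, h1⟩ = 0 := hmax _ (by
        rw [Fin.lt_def]
        show (m : ℕ) < j
        omega)
      have h4 : d j = 0 := by simp [d, h1, h3]
      rw [h4, zero_mul]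
  have hfin := h m m.2 (fun j => d j) (by
    show ¬ (M : ℤ) ∣ d ((Fin.last (m : ℕ) : Fin ((m : ℕ) + 1)) : ℕ)
    rw [Fin.val_last, hd]
    intro hdvd
    have h5 : M ∣ c m := by exact_mod_cast hdvd
    have h6 := Nat.le_of_dvd (Nat.pos_of_ne_zero hm0) h5
    have h7 := hc m
    omega)
  refine hfin.congr fun N => ?_
  congr 1
  refine Finset.sum_congr rfl fun n _ => ?_
  rw [ch, key n]

open Classical in
theorem fourw (M k : ℕ) (a : ℕ → ℤ) (w : ℕ → ℂ) (hM : 1 ≤ M)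
    (h : ∀ k' < k, ∀ c : Fin (k' + 1) → ℤ, ¬ (M : ℤ) ∣ c (Fin.last k') →
      Tendsto (fun N : ℕ => (∑ n ∈ range N, w n * Complex.exp (2 * Real.pi * Complex.I *
      ((∑ j, c j * a (n + j) : ℤ) : ℂ) / (M : ℂ))) / (N : ℂ)) atTop (𝓝 0)) (b : Fin k → ZMod M) :
    Tendsto (fun N : ℕ => (∑ n ∈ range N, w n * ((if ∀ j : Fin k, ((a (n + j) : ℤ) : ZMod M) = b j then 1 else 0) -
      ((M : ℂ) ^ k)⁻¹)) / (N : ℂ)) atTop (𝓝 0) := by
  choose β hβ using fun j => ZMod.intCast_surjective (b j)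
  have hM0 : (M : ℂ) ≠ 0 := by
    have : M ≠ 0 := by omega
    exact_mod_cast this
  have hMk : (M : ℂ) ^ k ≠ 0 := pow_ne_zero _ hM0
  have hiff : ∀ n : ℕ, (∀ j : Fin k, ((a (n + j) : ℤ) : ZMod M) = b j) ↔
      ∀ j : Fin k, (M : ℤ) ∣ a (n + j) - β j := by
    intro n
    refine forall_congr' fun j => ?_
    rw [← hβ j, ← ZMod.intCast_zmod_eq_zero_iff_dvd, Int.cast_sub, sub_eq_zero]
  set s := (Fintype.piFinset fun _ : Fin k => range M).erase 0 with hs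
  have h0mem : (0 : Fin k → ℕ) ∈ Fintype.piFinset fun _ : Fin k => range M :=
    Fintype.mem_piFinset.2 fun j => Finset.mem_range.2 (by
      show 0 < M
      omega)
  have hpt : ∀ n : ℕ, ((if ∀ j : Fin k, ((a (n + j) : ℤ) : ZMod M) = b j then (1 : ℂ) else 0) - ((M : ℂ) ^ k)⁻¹) =
      ((M : ℂ) ^ k)⁻¹ * ∑ c ∈ s, ch M (-∑ j : Fin k, (c j : ℤ) * β j) * ch M (∑ j : Fin k, (c j : ℤ) * a (n + j)) := by
    intro n
    have e1 := ind hM k (fun j => a (n + j)) β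
    rw [← Finset.add_sum_erase _ _ h0mem] at e1
    have e2 : ch M (-∑ j : Fin k, (((0 : Fin k → ℕ) j : ℕ) : ℤ) * β j) * ch M (∑ j : Fin k, (((0 : Fin k → ℕ) j : ℕ) : ℤ) * a (n + j)) = 1 := by
      simp [ch_zero]
    rw [e2] at e1
    have e3 : ∑ c ∈ s, ch M (-∑ j : Fin k, (c j : ℤ) * β j) * ch M (∑ j : Fin k, (c j : ℤ) * a (n + j)) =
        (if ∀ j : Fin k, (M : ℤ) ∣ a (n + j) - β j then (M : ℂ) ^ k else 0) - 1 := by
      rw [e1, hs]; ring
    rw [e3]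
    by_cases hb : ∀ j : Fin k, ((a (n + j) : ℤ) : ZMod M) = b j
    · rw [if_pos hb, if_pos ((hiff n).1 hb)]
      field_simp
    · rw [if_neg hb, if_neg fun h' => hb ((hiff n).2 h')]
      ring
  have hlim : Tendsto (fun N : ℕ => ((M : ℂ) ^ k)⁻¹ * ∑ c ∈ s, ch M (-∑ j, (c j : ℤ) * β j) *
      ((∑ n ∈ range N, w n * ch M (∑ j, (c j : ℤ) * a (n + j))) / (N : ℂ))) atTop
      (𝓝 (((M : ℂ) ^ k)⁻¹ * ∑ c ∈ s, ch M (-∑ j, (c j : ℤ) * β j) * 0)) := by
    refine Tendsto.const_mul _ (tendsto_finsetSum _ fun c hc => Tendsto.const_mul _ ?_)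
    rw [hs, Finset.mem_erase] at hc
    exact meanw k a w h c (fun j => Finset.mem_range.1 (Fintype.mem_piFinset.1 hc.2 j)) hc.1
  simp only [mul_zero, Finset.sum_const_zero] at hlim
  refine hlim.congr fun N => ?_
  symm
  calc (∑ n ∈ range N, w n * ((if ∀ j : Fin k, ((a (n + j) : ℤ) : ZMod M) = b j then (1 : ℂ) else 0) -
      ((M : ℂ) ^ k)⁻¹)) / (N : ℂ)
      = (∑ n ∈ range N, w n * (((M : ℂ) ^ k)⁻¹ * ∑ c ∈ s, ch M (-∑ j, (c j : ℤ) * β j) *
          ch M (∑ j, (c j : ℤ) * a (n + j)))) / (N : ℂ) := by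
        congr 1
        exact Finset.sum_congr rfl fun n _ => by rw [hpt n]
    _ = ((M : ℂ) ^ k)⁻¹ * ∑ c ∈ s, ch M (-∑ j, (c j : ℤ) * β j) *
      ((∑ n ∈ range N, w n * ch M (∑ j, (c j : ℤ) * a (n + j))) / (N : ℂ)) := by
        have e4 : ∑ n ∈ range N, w n * (((M : ℂ) ^ k)⁻¹ * ∑ c ∈ s, ch M (-∑ j, (c j : ℤ) * β j) *
          ch M (∑ j, (c j : ℤ) * a (n + j))) = ((M : ℂ) ^ k)⁻¹ * ∑ c ∈ s, ch M (-∑ j, (c j : ℤ) * β j) *
            ∑ n ∈ range N, w n * ch M (∑ j, (c j : ℤ) * a (n + j)) := by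
          simp only [Finset.mul_sum]
          rw [Finset.sum_comm]
          exact Finset.sum_congr rfl fun c _ => Finset.sum_congr rfl fun n _ => by ring
        rw [e4, mul_div_assoc, Finset.sum_div]
        congr 1
        exact Finset.sum_congr rfl fun c _ => by rw [mul_div_assoc]

open Classical in
/-- the main theorem for systems, with weights -/
theorem mainw (h3 : S_AVG) (h7 : S_SLLN) (hQ : Sys Q v) (μ : ℕ → Measure Bool)
    [∀ n, IsProbabilityMeasure (μ n)] (c₀ δ : ℝ) (hc : 0 < c₀) (hδ : 0 < δ) (hδ2 : δ < 1 / 2)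
    (hμ : ∀ n : ℕ, c₀ * ((n : ℝ) + 1) ^ (-δ) ≤ (μ n).real {true} ∧ (μ n).real {true} ≤ 1 / 2)
    (w : ℕ → ℂ) (hw : ∀ n, ‖w n‖ ≤ 1) :
    ∀ᵐ ω ∂(Measure.infinitePi μ), ∀ M k : ℕ, 1 ≤ M → ∀ b : Fin k → ZMod M,
      Tendsto (fun N : ℕ => (∑ n ∈ range N, w n *
        ((if ∀ j : Fin k, ((Q ω (n + j) : ℤ) : ZMod M) = b j then 1 else 0) - ((M : ℂ) ^ k)⁻¹)) / (N : ℂ))
        atTop (𝓝 0) := by
  have key : ∀ᵐ ω ∂(Measure.infinitePi μ), ∀ (M k : ℕ) (c : Fin (k + 1) → ℤ), 1 ≤ M →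
      ¬ (M : ℤ) ∣ c (Fin.last k) → Tendsto (fun N : ℕ =>
        (∑ n ∈ range N, w n * X Q M k c n ω) / (N : ℂ)) atTop (𝓝 0) := by
    refine ae_all_iff.2 fun M => ae_all_iff.2 fun k => ae_all_iff.2 fun c => ?_
    by_cases hM : 1 ≤ M
    · by_cases hd : (M : ℤ) ∣ c (Fin.last k)
      · exact Filter.Eventually.of_forall fun ω _ h => absurd hd h
      · obtain ⟨C, hC⟩ := momw h3 hQ μ c₀ δ hc hδ hδ2 hμ w hw M k c hM hd
        have h := h7 (Measure.infinitePi μ) (fun n ω => w n * X Q M k c n ω)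
          (fun n => (((h3 μ 0).2 _ (loc_X hQ M k c n)).1).const_mul _)
          (fun n ω => by
            rw [norm_mul]
            exact mul_le_one₀ (hw n) (norm_nonneg _) (norm_X _ _ _ _ _ _))
          C (1 + 2 * δ) (by linarith) hC
        filter_upwards [h] with ω hω _ _
        exact hω
    · exact Filter.Eventually.of_forall fun ω h => absurd h hM
  filter_upwards [key] with ω hω M k hM b
  exact fourw M k (fun n => Q ω n) w hM (fun k' _ c hc' => hω M k' c hM hc') b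

end Pool.Agent.U204.PE
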